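import Pool.Agent.H37.CTT.Stmts
import Pool.Agent.H41.CTL.T61

/-!
# Row SU3 of the board `ctt`
-/

set_option autoImplicit false

namespace Pool.CND.SU3H

open Matrix

/-- sections through a homomorphism which is injective on `H` -/
theorem psec_map {G G' : Type} [Group G] [Group G'] (p : ℕ) (π : G →* G') (H : Subgroup G)
    (z : G) (hz : z ∈ H) (hinj : ∀ x ∈ H, π x = 1 → x = 1) (h : PSec p H z) :
    PSec p (H.map π) (π z) := by
  obtain ⟨H₀, hle, hnorm, hz0, hcase⟩ := h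
  have hin : ∀ x ∈ H, ∀ y ∈ H, π x = π y → x = y := by
    intro x hx y hy hxy
    have h1 : x * y⁻¹ = 1 := by
      apply hinj _ (H.mul_mem hx (H.inv_mem hy))
      rw [map_mul, map_inv, hxy, mul_inv_cancel]
    exact mul_inv_eq_one.1 h1
  refine ⟨H₀.map π, ?_, ?_, ?_, ?_⟩
  · rintro _ ⟨x, hx, rfl⟩
    exact ⟨x, hle hx, rfl⟩
  · rintro _ ⟨a, ha, rfl⟩ _ ⟨x, hx, rfl⟩
    exact ⟨a * x * a⁻¹, hnorm a ha x hx, by simp⟩
  · rintro ⟨x, hx, hxz⟩
    apply hz0
    rw [← hin x (hle hx) z hz hxz]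
    exact hx
  · rcases hcase with hc | ⟨hp2, hc⟩
    · left
      rintro _ ⟨x, hx, rfl⟩ _ ⟨a, ha, rfl⟩
      exact ⟨a * x * a⁻¹ * x⁻¹, hc x hx a ha, by simp⟩
    · right
      refine ⟨hp2, ?_⟩
      rintro _ ⟨x, hx, rfl⟩ hxp _ ⟨a, ha, rfl⟩
      obtain ⟨y, hy, hyx⟩ := hxp
      have h2 : y = x ^ p := hin y (hle hy) (x ^ p) (H.pow_mem hx p) (by rw [hyx, map_pow])
      exact ⟨a * x * a⁻¹ * x⁻¹, hc x hx (h2 ▸ hy) a ha, by simp⟩

/-- a transvection as an element of `Sp_4` -/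
def tv {F : Type} [Field F] (i j : Fin 4) (hij : i ≠ j)
    (h : (transvection i j (1 : F))ᵀ * J4s F * transvection i j (1 : F) = J4s F) : Sp4 F :=
  ⟨⟨transvection i j (1 : F), det_transvection_of_ne i j hij 1⟩, h⟩

theorem tv_comm {F : Type} [Field F] (i j : Fin 4) (hij : i ≠ j)
    (h : (transvection i j (1 : F))ᵀ * J4s F * transvection i j (1 : F) = J4s F)
    (c : Sp4 F) (hc : c ∈ Subgroup.center (Sp4 F)) :
    single i j (1 : F) * c.1.1 = c.1.1 * single i j (1 : F) := by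
  have h1 := Subgroup.mem_center_iff.1 hc (tv i j hij h)
  have h2 : transvection i j (1 : F) * c.1.1 = c.1.1 * transvection i j (1 : F) :=
    congrArg (fun u : Sp4 F => u.1.1) h1
  rw [transvection, Matrix.add_mul, Matrix.mul_add, Matrix.one_mul, Matrix.mul_one] at h2
  exact add_left_cancel h2

theorem f03 {F : Type} [Field F] :
    (transvection 0 3 (1 : F))ᵀ * J4s F * transvection 0 3 (1 : F) = J4s F := by
  ext i j
  fin_cases i <;> fin_cases j <;>
    simp [transvection, J4s, Matrix.mul_apply, Fin.sum_univ_four, Matrix.add_apply,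
      Matrix.one_apply, Matrix.single_apply]

theorem f30 {F : Type} [Field F] :
    (transvection 3 0 (1 : F))ᵀ * J4s F * transvection 3 0 (1 : F) = J4s F := by
  ext i j
  fin_cases i <;> fin_cases j <;>
    simp [transvection, J4s, Matrix.mul_apply, Fin.sum_univ_four, Matrix.add_apply,
      Matrix.one_apply, Matrix.single_apply]

theorem f12 {F : Type} [Field F] :
    (transvection 1 2 (1 : F))ᵀ * J4s F * transvection 1 2 (1 : F) = J4s F := by
  ext i j
  fin_cases i <;> fin_cases j <;>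
    simp [transvection, J4s, Matrix.mul_apply, Fin.sum_univ_four, Matrix.add_apply,
      Matrix.one_apply, Matrix.single_apply]

theorem f21 {F : Type} [Field F] :
    (transvection 2 1 (1 : F))ᵀ * J4s F * transvection 2 1 (1 : F) = J4s F := by
  ext i j
  fin_cases i <;> fin_cases j <;>
    simp [transvection, J4s, Matrix.mul_apply, Fin.sum_univ_four, Matrix.add_apply,
      Matrix.one_apply, Matrix.single_apply]

/-- the centre has exponent two -/
theorem center_sq {F : Type} [Field F] (c : Sp4 F) (hc : c ∈ Subgroup.center (Sp4 F)) :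
    c ^ 2 = 1 := by
  have e1 := tv_comm 0 3 (by decide) f03 c hc
  have e2 := tv_comm 3 0 (by decide) f30 c hc
  have e3 := tv_comm 1 2 (by decide) f12 c hc
  have e4 := tv_comm 2 1 (by decide) f21 c hc
  have hJ : c.1.1ᵀ * J4s F * c.1.1 = J4s F := c.2
  set M : Matrix (Fin 4) (Fin 4) F := c.1.1 with hM
  have e1' : ∀ i j : Fin 4, (single 0 3 (1 : F) * M : Matrix (Fin 4) (Fin 4) F) i j =
      (M * single 0 3 (1 : F) : Matrix (Fin 4) (Fin 4) F) i j := by
    intro i j; rw [e1]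
  have e2' : ∀ i j : Fin 4, (single 3 0 (1 : F) * M : Matrix (Fin 4) (Fin 4) F) i j =
      (M * single 3 0 (1 : F) : Matrix (Fin 4) (Fin 4) F) i j := by
    intro i j; rw [e2]
  have e3' : ∀ i j : Fin 4, (single 1 2 (1 : F) * M : Matrix (Fin 4) (Fin 4) F) i j =
      (M * single 1 2 (1 : F) : Matrix (Fin 4) (Fin 4) F) i j := by
    intro i j; rw [e3]
  have e4' : ∀ i j : Fin 4, (single 2 1 (1 : F) * M : Matrix (Fin 4) (Fin 4) F) i j =
      (M * single 2 1 (1 : F) : Matrix (Fin 4) (Fin 4) F) i j := by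
    intro i j; rw [e4]
  simp only [Matrix.mul_apply, Fin.sum_univ_four, Matrix.single_apply] at e1' e2' e3' e4'
  have a10 : M 1 0 = 0 := by simpa using (e1' 1 3).symm
  have a20 : M 2 0 = 0 := by simpa using (e1' 2 3).symm
  have a30 : M 3 0 = 0 := by simpa using (e1' 3 3).symm
  have a13 : M 1 3 = 0 := by simpa using (e2' 1 0).symm
  have a23 : M 2 3 = 0 := by simpa using (e2' 2 0).symm
  have a03 : M 0 3 = 0 := by simpa using (e2' 0 0).symm
  have a01 : M 0 1 = 0 := by simpa using (e3' 0 2).symm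
  have a21 : M 2 1 = 0 := by simpa using (e3' 2 2).symm
  have a31 : M 3 1 = 0 := by simpa using (e3' 3 2).symm
  have a02 : M 0 2 = 0 := by simpa using (e4' 0 1).symm
  have a12 : M 1 2 = 0 := by simpa using (e4' 1 1).symm
  have a32 : M 3 2 = 0 := by simpa using (e4' 3 1).symm
  have b1 : M 3 3 = M 0 0 := by simpa using e1' 0 3
  have b2 : M 2 2 = M 1 1 := by simpa using e3' 1 2
  have c1 : M 0 0 * M 3 3 = 1 := by
    have h := congrFun (congrFun hJ 0) 3
    simpa [Matrix.mul_apply, Fin.sum_univ_four, J4s, Matrix.transpose_apply, a10, a20, a30, a13,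
      a23, a03] using h
  have c2 : M 1 1 * M 2 2 = 1 := by
    have h := congrFun (congrFun hJ 1) 2
    simpa [Matrix.mul_apply, Fin.sum_univ_four, J4s, Matrix.transpose_apply, a01, a21, a31, a02,
      a12, a32] using h
  rw [b1] at c1
  rw [b2] at c2
  have h1 : M * M = 1 := by
    ext i j
    fin_cases i <;> fin_cases j <;>
      simp [Matrix.mul_apply, Fin.sum_univ_four, a10, a20, a30, a13, a23, a03, a01, a21, a31, a02,
        a12, a32, b1, b2, c1, c2]
  apply Subtype.ext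
  apply Subtype.ext
  show (c ^ 2).1.1 = 1
  rw [pow_two]
  exact h1

end Pool.CND.SU3H

namespace Pool.CND

open Pool.CND.T61H

theorem su3_thm (h1 : S_GDW) (h2 : S_SU1) (h3 : S_SU2) : S_SU3 := by
  intro p f q k F _ _ _ _ C _ hp hp2 hf hq hcard hC
  have hpF : Fact p.Prime := ⟨hp⟩
  have hp3 : 3 ≤ p := by
    have := hp.two_le
    omega
  have hq3 : 3 ≤ q := by
    rw [hq]
    calc 3 ≤ p := hp3
      _ = p ^ 1 := (pow_one p).symm
      _ ≤ p ^ f := Nat.pow_le_pow_right hp.pos hf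
  have hFf : Finite F := Nat.finite_of_card_ne_zero (by omega)
  have hMf : Finite (Matrix (Fin 4) (Fin 4) F) := inferInstanceAs (Finite (Fin 4 → Fin 4 → F))
  have hSf : Finite (Matrix.SpecialLinearGroup (Fin 4) F) := Subtype.finite
  have hGf : Finite (Sp4 F) := inferInstance
  have hpC : ¬ p ∣ Nat.card C := by
    intro hd
    obtain ⟨c, hc⟩ := exists_prime_orderOf_dvd_card' p hd
    have h4 : c ^ 2 = 1 := by
      apply Subtype.ext
      exact SU3H.center_sq c.1 (hC c.2)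
    have h5 := orderOf_dvd_of_pow_eq_one h4
    rw [hc] at h5
    have h6 := Nat.le_of_dvd (by norm_num) h5
    omega
  set r := (q ^ 2 - 1) / 2 with hr
  have hr1 : 1 ≤ r := by
    have h9 : 3 ^ 2 ≤ q ^ 2 := Nat.pow_le_pow_left hq3 2
    omega
  rw [show q * r = p ^ f * r by rw [hq]]
  refine h1 p k (Sp4 F ⧸ C) f r hp inferInstance hr1 ?_
  rintro W ⟨N, hN⟩ -
  obtain ⟨W₁, hP, hmap, hinj, hall⟩ := lift_p p C hC hpC W N hN
  set π := QuotientGroup.mk' C with hπ
  have hW1 : ∀ x ∈ W₁, π x ∈ W := fun x hx => hmap ▸ ⟨x, hx, rfl⟩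
  constructor
  · intro z hzW hz1 hzp hzc
    rw [← hmap] at hzW
    obtain ⟨z₁, hz₁, rfl⟩ := hzW
    have hc1 : ∀ w ∈ W₁, w * z₁ = z₁ * w := by
      intro w hw
      have h2 := hinj (w * z₁ * (z₁ * w)⁻¹)
        (W₁.mul_mem (W₁.mul_mem hw hz₁) (W₁.inv_mem (W₁.mul_mem hz₁ hw)))
        (by rw [map_mul, map_inv, map_mul, map_mul, hzc (π w) (hW1 w hw), mul_inv_cancel])
      exact mul_inv_eq_one.1 h2
    have hz₁1 : z₁ ≠ 1 := by
      intro h
      exact hz1 (by rw [h, map_one])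
    have hz₁p : z₁ ^ p = 1 := hinj _ (W₁.pow_mem hz₁ p) (by rw [map_pow]; exact hzp)
    obtain ⟨H, d, hHW, hzH, hcd, hd, hsec⟩ := h2 p f q F W₁ z₁ hp hp2 hf hq hcard
      (IsPGroup.iff_card.1 hP) hz₁ hz₁1 hz₁p hc1
    have hin : ∀ x ∈ H, π x = 1 → x = 1 := fun x hx => hinj x (hHW hx)
    refine ⟨H.map π, d, ?_, ⟨z₁, hzH, rfl⟩, SU3H.psec_map p π H z₁ hzH hin hsec, hd, ?_⟩
    · rintro _ ⟨x, hx, rfl⟩
      exact hW1 x (hHW hx)
    · rw [← hmap, card_map π W₁ hinj, card_map π H hin, hcd]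
  · intro g C' hg hgW hC'W hC'b _ _ hC'g _ x _
    obtain ⟨h, rfl⟩ := QuotientGroup.mk'_surjective C g
    have hh : ¬ p ∣ orderOf h := by
      intro hd
      have h2 : h ^ orderOf (π h) ∈ C := by
        rw [← QuotientGroup.eq_one_iff]
        show π (h ^ orderOf (π h)) = 1
        rw [map_pow, pow_orderOf_eq_one]
      have h3 : h ^ (orderOf (π h) * Nat.card C) = 1 := by
        rw [pow_mul]
        have : (⟨_, h2⟩ : C) ^ Nat.card C = 1 := pow_card_eq_one'
        exact congrArg (fun u : C => (u : Sp4 F)) this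
      have h4 := hd.trans (orderOf_dvd_of_pow_eq_one h3)
      rcases hp.dvd_mul.1 h4 with h5 | h5
      · exact hg h5
      · exact hpC h5
    set C₁ : Subgroup (Sp4 F) := W₁ ⊓ C'.comap π with hC₁
    have hn1 : ∀ w ∈ C₁, h * w * h⁻¹ ∈ C₁ := by
      rintro w ⟨hw, hwC⟩
      have h6 : π (h * w * h⁻¹) ∈ C' := by
        rw [map_mul, map_mul, map_inv]
        exact hC'g _ hwC
      refine ⟨hall _ (hC'W h6) ?_, h6⟩
      obtain ⟨m, hm⟩ := hP ⟨w, hw⟩
      refine ⟨m, ?_⟩
      have hm' : w ^ p ^ m = 1 := congrArg (fun u : W₁ => (u : Sp4 F)) hm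
      rw [conj_pow, hm', mul_one, mul_inv_cancel]
    have hCb : C₁ ≠ ⊥ := by
      intro hb
      apply hC'b
      rw [eq_bot_iff]
      intro c hc
      have h6 := hC'W hc
      rw [← hmap] at h6
      obtain ⟨w, hw, rfl⟩ := h6
      have h7 : w ∈ C₁ := ⟨hw, hc⟩
      rw [hb, Subgroup.mem_bot] at h7
      rw [h7, map_one]
      exact Subgroup.one_mem _
    have hPC : IsPGroup p C₁ := hP.to_le inf_le_left
    have h8 := h3 p f q F C₁ h hp hp2 hf hq hcard (IsPGroup.iff_card.1 hPC) hCb hh hn1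
    obtain ⟨y, rfl⟩ := QuotientGroup.mk'_surjective C x
    rw [← map_pow, ← map_mul, ← map_mul]
    congr 1
    exact (Subgroup.mem_center_iff.1 h8 y).symm

end Pool.CND
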